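import Pool.Agent.Lib_helper59.MFF.F1b
import Pool.Agent.Lib_helper59.LHM.All

set_option autoImplicit false

namespace Pool.Agent.Results.MP_5dd4bb_nt.MeanFormula

/-- The variance of the primes up to `X` in the reduced residue classes modulo `Q`. -/
noncomputable def G (X : ℝ) (Q : ℕ) : ℝ :=
  ∑ a ∈ (Finset.range Q).filter (fun a => Nat.Coprime a Q),
    ((∑ n ∈ (Finset.Icc 1 ⌊X⌋₊).filter (fun n => n % Q = a), ArithmeticFunction.vonMangoldt n)
      - X / (Nat.totient Q : ℝ)) ^ 2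

open scoped Classical in
/-- The part of the variance which is carried by the characters modulo `Q` of conductor at most
`(X / Q) (log X) ^ 8`. -/
noncomputable def L (X : ℝ) (Q : ℕ) : ℝ :=
  (1 / (Nat.totient Q : ℝ)) * ∑ χ : DirichletCharacter ℂ Q,
    if (χ.conductor : ℝ) ≤ X / Q * Real.log X ^ 8 then
      ‖∑ n ∈ Finset.Icc 1 ⌊X⌋₊, ((ArithmeticFunction.vonMangoldt n : ℝ) : ℂ) * χ (n : ZMod Q)
        - (if χ = 1 then (X : ℂ) else 0)‖ ^ 2 else 0

/-- The conjectured value of `G X Q`, with the second order term. -/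
noncomputable def M (X : ℝ) (Q : ℕ) : ℝ :=
  X * (Real.log Q - (Real.eulerMascheroniConstant + Real.log (2 * Real.pi)
    + ∑ p ∈ Q.primeFactors, Real.log (p : ℝ) / ((p : ℝ) - 1)))

/-- The exponential sum over the primes up to `X`. -/
noncomputable def S (X t : ℝ) : ℂ :=
  ∑ n ∈ Finset.Icc 1 ⌊X⌋₊, ((ArithmeticFunction.vonMangoldt n : ℝ) : ℂ) *
    Complex.exp ((2 * Real.pi * (n * t) : ℝ) * Complex.I)

/-- The integral of `exp (2 π i t β)` over `0 ≤ t ≤ X`. -/
noncomputable def I (X β : ℝ) : ℂ :=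
  ∫ t in (0 : ℝ)..X, Complex.exp ((2 * Real.pi * (t * β) : ℝ) * Complex.I)

/-- The defect: the distance of the exponential sum from its principal part, on the Farey arcs of
order `(X / Y) (log X) ^ 8`, with the kernel `k(q Y |β|)`, `k(v) = 1 - ⌊v⌋ / v`. -/
noncomputable def D (X : ℝ) (Y : ℕ) : ℝ :=
  Y * ∑ q ∈ Finset.Icc 1 ⌊X / Y * Real.log X ^ 8⌋₊,
    ∫ β in (-((Y : ℝ) / (2 * q * (X * Real.log X ^ 8))))..((Y : ℝ) / (2 * q * (X * Real.log X ^ 8))),
      (1 - (⌊q * Y * |β|⌋₊ : ℝ) / (q * Y * |β|)) *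
        ∑ c ∈ (Finset.range q).filter (fun c => Nat.Coprime c q),
          ‖S X ((c : ℝ) / q + β) -
            (((ArithmeticFunction.moebius q : ℤ) : ℝ) / (Nat.totient q : ℝ) : ℝ) * I X β‖ ^ 2

theorem D_eq (X : ℝ) (Y : ℕ) : D X Y = Pool.Agent.MF.DD X Y := rfl

theorem D_nonneg {X : ℝ} {Y : ℕ} (hX : 1 ≤ X) : 0 ≤ D X Y := by
  unfold D
  apply mul_nonneg (Nat.cast_nonneg _)
  apply Finset.sum_nonneg
  intro q hq
  have hlog : 0 ≤ Real.log X := Real.log_nonneg hX
  apply intervalIntegral.integral_nonneg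
  · have : 0 ≤ (Y : ℝ) / (2 * q * (X * Real.log X ^ 8)) := by positivity
    linarith
  · intro β _
    apply mul_nonneg
    · have h0 : 0 ≤ (q : ℝ) * Y * |β| := by positivity
      rw [sub_nonneg]
      exact div_le_one_of_le₀ (Nat.floor_le h0) h0
    · exact Finset.sum_nonneg fun c _ => by positivity

/-- The mean value of the variance of the primes in progressions: exact formula with the second
order term and the explicit defect `D ≥ 0` in the whole range, and the lower half of the conjectured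
asymptotic for the mean of `G` itself near `Y = X`, for every `X`. -/
theorem result : ∃ c C : ℝ, 0 < c ∧ 0 < C ∧ ∀ η : ℝ, 0 < η → ∃ C' : ℝ, ∀ (X : ℝ) (Y : ℕ),
    C' ≤ X → C' * (Y : ℝ) ≤ X →
      (Real.sqrt X * Real.log X ^ 12 ≤ (Y : ℝ) →
        |∑ Q ∈ Finset.Icc 1 Y, (G X Q - L X Q - M X Q) + D X Y| ≤ η * X * Y ∧ 0 ≤ D X Y) ∧
      (X ^ (1 - c) ≤ (Y : ℝ) →
        -((C * Real.exp (-(c * Real.log X / Real.log (X / Y))) * Real.log X + η) * X * Y) ≤
          ∑ Q ∈ Finset.Icc 1 Y, (G X Q - M X Q)) := by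
  obtain ⟨c, C, hc, hC, h2⟩ := Pool.Agent.LHM.lower_half
  refine ⟨c, C, hc, hC, fun η hη => ?_⟩
  obtain ⟨C1, h1⟩ := Pool.Agent.MF.mean_formula η hη
  obtain ⟨C2, h2⟩ := h2 η hη
  refine ⟨max (max C1 C2) 1, fun X Y hX hCY => ?_⟩
  have hYn : (0 : ℝ) ≤ Y := Nat.cast_nonneg _
  have a1 : C1 ≤ X := ((le_max_left _ _).trans (le_max_left _ _)).trans hX
  have a2 : C2 ≤ X := ((le_max_right _ _).trans (le_max_left _ _)).trans hX
  have a3 : 1 ≤ X := (le_max_right _ _).trans hX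
  have b1 : C1 * Y ≤ X :=
    (mul_le_mul_of_nonneg_right ((le_max_left _ _).trans (le_max_left _ _)) hYn).trans hCY
  have b2 : C2 * Y ≤ X :=
    (mul_le_mul_of_nonneg_right ((le_max_right _ _).trans (le_max_left _ _)) hYn).trans hCY
  exact ⟨fun hY => ⟨h1 X Y a1 hY b1, D_nonneg a3⟩, fun hY => h2 X Y a2 hY b2⟩

end Pool.Agent.Results.MP_5dd4bb_nt.MeanFormula
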